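import Pool.Agent.X224.RK.Main

/-!
Every rank on the bounded Baire class 1 functions which satisfies (P1), (P2), (P3), (P4) is
equivalent to the separation rank `α₁`: the restriction property (P5) is not needed.
-/

namespace Pool.Agent.Results.MP_12cd8a_lc.NoOtherRank

open Pool.Agent.X224.RK

/-- Every rank satisfying (P1)-(P4) satisfies `ρ(f) ≈ α₁(f)` for every Polish space `X` and every
bounded Baire class 1 function `f` on `X`. -/
theorem result (ρ : Rank) (_ : IsRank ρ) (h1 : P1 ρ) (h2 : P2 ρ) (h3 : P3 ρ) (h4 : P4 ρ)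
    (X : Type) [TopologicalSpace X] [PolishSpace X] (f : X → ℝ) (hf : Baire1 f) (hb : Bdd f) :
    approx (ρ X f) (alpha1 f) :=
  ⟨upper h1 h2 h3 hf hb, lower h1 h2 h4 hf hb⟩

end Pool.Agent.Results.MP_12cd8a_lc.NoOtherRank
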